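import Pool.Agent.Helper5.FN3.Fib
import Pool.Agent.Helper15.FST.St
import Pool.Agent.Helper52.KP.Agr
import Pool.Agent.Helper49.KL.Rim

/-! [N3] of the rows of FIRST: type-labels of the zoom, the fiber of the cells of the zoom. -/

set_option autoImplicit false

namespace Pool.Agent.Helper5.FN3

open Finset Filter Topology Matrix Pool.Agent.Helper69.RK Pool.Agent.Helper31.EC Pool.Agent.Helper31.EC.Sp
open Pool.Agent.Helper40.EL Pool.Agent.Helper89.LX Pool.Agent.Helper3.LF Pool.Agent.Helper84.MT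
open Pool.Agent.Helper7.GZ Pool.Agent.Helper7.RD Pool.Agent.Helper29.MX Pool.Agent.Helper36.AM
open Pool.Agent.Helper70.CPW (zuz WinR)
open Pool.Agent.Helper15.FST (Zst ROW_N3)
open Pool.Agent.Helper93.FST (TamP)

noncomputable section

variable {S : Sp} {N : ℕ} {E : ℕ → ℕ} {ι : Type} {s : MSys S N E ι} {κ : ℕ} {c a w U : ℝ} (Z : Zst s κ c a w U)
  (l : Lab ((Lab.ofZ Z.W).ovr w Z.hu))

/-- typical events of the zoom, over a label -/
theorem typ_cl {P : ∀ k, (S.F k).Ω → Prop} (h : Typ (S := (Lab.ofZ Z.W).sp) P) (V : ∀ k, Setoid (l k).T.Ω) :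
    Typ (S := (Lab.addW (Z.cl l) V).sp) (fun k (ω : (l k).T.Ω) => P k ((l k).p.π ω)) := by
  have h1 : Typ (S := (Lab.ofZ Z.W).ovr w Z.hu) P := h
  exact Pool.Agent.Helper49.KL.typ_pull (l := l) h1

/-- the cells of the zoom of level `r` -/
def xc (r : ℝ) (k : ℕ) : Setoid (l k).T.Ω := Setoid.comap (l k).p.π (Setoid.ker (Z.z.X.cellv r k))

/-- the label with the cells of the zoom -/
def lx (r : ℝ) : Lab S := Lab.addW (Z.cl l) (xc Z l r)

theorem xdl (r : ℝ) (k : ℕ) : (zuz Z.W c w Z.h0 Z.hu Z.h1).sp.dl r k = S.dl (w * r) k := by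
  unfold Sp.dl
  have h1 : ((zuz Z.W c w Z.h0 Z.hu Z.h1).sp.F k).n = w * (S.F k).n := (zuz Z.W c w Z.h0 Z.hu Z.h1).sp_n k
  rw [h1]
  congr 1
  ring

/-- the rows with centres over the label with the cells -/
def fr {r : ℝ} (hr0 : 0 ≤ r) (hr1 : r ≤ 1) : FR s.Q (lx Z l r) Z.z.D (a + w) w (w * r) U where
  p := fun k (ω : (l k).T.Ω) => Z.z.R.p k ((l k).p.π ω)
  c := fun k (ω : (l k).T.Ω) j => (Z.z.X.cellv r k ((l k).p.π ω) j : ℝ) * S.dl (w * r) k
  Λ := Z.z.Λ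
  deg := fun k ω j => Z.z.R.deg k _ j
  fn := by
    filter_upwards [Z.z.R.fn] with k hk ω ω' h1 h2 h3 h4
    have e1 : ((Lab.ofZ Z.W) k).T.μ ((l k).p.π ω) ≠ 0 := (l k).p.supp ω h1
    have e2 : ((Lab.ofZ Z.W) k).T.μ ((l k).p.π ω') ≠ 0 := (l k).p.supp ω' h2
    refine ⟨hk _ _ e1 e2 h3 h4.1.1, ?_⟩
    have e3 : Z.z.X.cellv r k ((l k).p.π ω) = Z.z.X.cellv r k ((l k).p.π ω') := h4.2
    funext j
    show (Z.z.X.cellv r k ((l k).p.π ω) j : ℝ) * _ = (Z.z.X.cellv r k ((l k).p.π ω') j : ℝ) * _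
    rw [e3]
  cf := by
    obtain ⟨K, hK, hh⟩ := Z.z.R.cf
    refine ⟨K, hK, ?_⟩
    filter_upwards [hh] with k hk ω hω j i
    exact hk _ ((l k).p.supp ω hω) j i
  cb := by
    obtain ⟨K, hK, hh⟩ := Z.z.X.bd
    have hK' : S.Sub K := (zuz Z.W c w Z.h0 Z.hu Z.h1).Sub_sp.2 hK
    refine ⟨fun k => K k + 1, hK'.add (S.Sub_const zero_le_one), ?_⟩
    filter_upwards [hh] with k hk ω hω j
    have e1 : |Z.z.X.v k ((l k).p.π ω) j| ≤ K k := hk _ ((l k).p.supp ω hω) j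
    have hd := S.dl_pos (w * r) k
    have hd1 : S.dl (w * r) k ≤ 1 := (S.dl_anti (mul_nonneg Z.hu.le hr0) k).trans (le_of_eq (S.dl_zero k))
    have e2 : Z.z.X.cellv r k ((l k).p.π ω) j = ⌊Z.z.X.v k ((l k).p.π ω) j / S.dl (w * r) k⌋ := by
      show ⌊Z.z.X.v k ((l k).p.π ω) j / (zuz Z.W c w Z.h0 Z.hu Z.h1).sp.dl r k⌋ = _
      rw [xdl]
    rw [e2]
    have f1 := Int.floor_le (Z.z.X.v k ((l k).p.π ω) j / S.dl (w * r) k)
    have f2 := Int.lt_floor_add_one (Z.z.X.v k ((l k).p.π ω) j / S.dl (w * r) k)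
    rw [le_div_iff₀ hd] at f1
    rw [div_lt_iff₀ hd] at f2
    rw [abs_le] at e1 ⊢
    constructor <;> linarith
  near := by
    obtain ⟨K, hK, hh⟩ := Z.z.hX
    refine ⟨fun k => K k + 1, hK.add (S.Sub_const zero_le_one), ?_⟩
    have h1 := typ_cl Z l (P := fun k ω => ∀ j, |Z.z.X.v k ω j - Rows.val (zuz Z.W c w Z.h0 Z.hu Z.h1) Z.z.R k ω j| ≤
      K k * S.dl w k) hh (xc Z l r)
    refine Typ.mono (S := (lx Z l r).sp) h1 ?_
    filter_upwards [hK.1] with k hk0 ω _ h2 j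
    have e1 := h2 j
    have hd := S.dl_pos (w * r) k
    have hd1 : S.dl w k ≤ S.dl (w * r) k := S.dl_anti (mul_le_of_le_one_right Z.hu.le hr1) k
    have e2 : Z.z.X.cellv r k ((l k).p.π ω) j = ⌊Z.z.X.v k ((l k).p.π ω) j / S.dl (w * r) k⌋ := by
      show ⌊Z.z.X.v k ((l k).p.π ω) j / (zuz Z.W c w Z.h0 Z.hu Z.h1).sp.dl r k⌋ = _
      rw [xdl]
    show |Rows.val (zuz Z.W c w Z.h0 Z.hu Z.h1) Z.z.R k ((l k).p.π ω) j -
      (Z.z.X.cellv r k ((l k).p.π ω) j : ℝ) * S.dl (w * r) k| ≤ (K k + 1) * S.dl (w * r) k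
    rw [e2]
    have f1 := Int.floor_le (Z.z.X.v k ((l k).p.π ω) j / S.dl (w * r) k)
    have f2 := Int.lt_floor_add_one (Z.z.X.v k ((l k).p.π ω) j / S.dl (w * r) k)
    rw [le_div_iff₀ hd] at f1
    rw [div_lt_iff₀ hd] at f2
    have f3 := mul_le_mul_of_nonneg_left hd1 hk0
    rw [abs_le] at e1 ⊢
    constructor <;> linarith
  lp := by
    intro L hL
    obtain ⟨K, hK, hh⟩ := Z.tam.lp w Z.hu.le L hL
    exact ⟨K, hK, typ_cl Z l hh (xc Z l r)⟩
  det := by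
    obtain ⟨K, hK, hh⟩ := Z.det
    refine ⟨K, hK, ?_⟩
    have h1 := typ_cl Z l hh (xc Z l r)
    exact Typ.mono (S := (lx Z l r).sp) h1 (Eventually.of_forall fun k ω _ h2 => h2.1)

/-- THE FIBER -/
theorem fib {r : ℝ} (hr0 : 0 ≤ r) (hr1 : r < 1) : H (up1 (lx Z l r) (s.Q.dg (a + w))) ≤ N * (a + w) - U - N * (w * r) := by
  have ha0 : 0 ≤ a := Z.h0.trans Z.ca
  have hw := Z.hu
  refine (fr Z l hr0 hr1.le).count (by linarith) (mul_lt_of_lt_one_right hw hr1) ?_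
  have := mul_nonneg hw.le hr0
  linarith

theorem row_n3 : ROW_N3 := by
  intro S N g r κ s c a w U Z b hb hb1 l hl
  have hw := Z.hu
  refine ⟨?_, ?_⟩
  · have h0 : c ≤ c + w * b := by
      have := mul_nonneg hw.le hb
      linarith
    have h1 : (Lab.ofZ Z.W).DMf (fun i => (s.lf i).win (c + w * b)) :=
      Lab.DMf.mono (show (Lab.ofZ Z.W).DMf (fun i => (s.lf i).win c) from Z.tlb) fun i => ⟨i, (s.lf i).win_mono h0⟩
    exact Lab.DMf.comp h1 (Lab.DMf.mono (show l.DMf (fun i => (Z.t.lf i).win b) from hl)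
      fun i => ⟨i, (Z.win b i hb hb1).1⟩)
  · rw [Z.tQ]
    have h1 : ∀ e : ℝ, 0 < e → H (up1 (Z.cl l) (s.Q.dg (a + w))) - (N * a - U) ≤
        w * H (up1 l (Z.z.X.dg 1)) + e := by
      intro e he
      obtain ⟨r, hr0, hr1, hre⟩ : ∃ r : ℝ, 0 ≤ r ∧ r < 1 ∧ N * (w * (1 - r)) ≤ e := by
        refine ⟨max 0 (1 - e / (N * w + 1)), le_max_left _ _, max_lt one_pos (by
          have : 0 < e / (N * w + 1) := by positivity
          linarith), ?_⟩
        have h2 : 1 - max 0 (1 - e / (N * w + 1)) ≤ e / (N * w + 1) := by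
          have := le_max_right 0 (1 - e / (N * w + 1))
          linarith
        have h3 : (N : ℝ) * (w * (1 - max 0 (1 - e / (N * w + 1)))) ≤ N * w * (e / (N * w + 1)) := by
          rw [← mul_assoc]
          exact mul_le_mul_of_nonneg_left h2 (by positivity)
        refine h3.trans ?_
        rw [mul_div_assoc', div_le_iff₀ (by positivity)]
        nlinarith
      have h2 := chain (Lab.ofZ Z.W) Z.hu l Z.z.X s.Q r (a + w)
      have h3 := fib Z l hr0 hr1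
      have h4 : H (up1 l (Z.z.X.dg r)) ≤ H (up1 l (Z.z.X.dg 1)) := H_mono (up1_mono l (VV.dg_mono _ hr1.le))
      have h5 := mul_le_mul_of_nonneg_left h4 hw.le
      have h6 : H (up1 (Z.cl l) (s.Q.dg (a + w))) ≤ w * H (up1 l (Z.z.X.dg r)) + H (up1 (lx Z l r) (s.Q.dg (a + w))) := h2
      linarith
    exact le_of_forall_pos_le_add h1

end

end Pool.Agent.Helper5.FN3
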