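import Pool.Agent.Helper7.RD.Vz
import Pool.Agent.Helper14.MC.Cnt
import Pool.Agent.Helper52.GF.Mxb
import Pool.Agent.Helper8.CPY.AllE
import Pool.Agent.Helper13.AM.Zq
import Pool.Agent.Helper52.KP.Agr

/-! THE FIBER COUNT: the cells of level `b` of a point over a label which knows rows and their values up to `2 ^ (- θ n)`:
at most `N b - U - N θ` if the rows are Lipschitz at the distance `2 ^ (- b n)` with the bound `2 ^ (- w n)`, `θ < w`, and
have the Jacobian exponent `U`. (The form of the truncated point which is given by the rows.) -/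

set_option autoImplicit false

namespace Pool.Agent.Helper5.FN3

open Finset Filter Topology Matrix Pool.Agent.Helper69.RK Pool.Agent.Helper31.EC Pool.Agent.Helper31.EC.Sp
open Pool.Agent.Helper40.EL Pool.Agent.Helper89.LX Pool.Agent.Helper3.LF Pool.Agent.Helper84.MT
open Pool.Agent.Helper95.LF
open Pool.Agent.Helper7.GZ Pool.Agent.Helper7.RD
open Pool.Agent.Helper52.SL (untF tnF untL tnL nul_trn cellv_chg untF_leak tnF_leak)
open Pool.Agent.Helper13.AM (chg_sub')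

noncomputable section

variable {S : Sp} {N : ℕ}

/-- entropies over a label followed by the trivial label -/
theorem h_comp_triv {F : FSp} (l : FLab F) (c : ℝ) (hc : 0 < c) (x : FL F) :
    Pool.Agent.Helper31.EC.h ((l.comp c hc (FLab.triv (l.ovr c hc))).p.map x) (l.comp c hc (FLab.triv (l.ovr c hc))).v =
      Pool.Agent.Helper31.EC.h (l.p.map x) l.v := by
  have e1 : (l.comp c hc (FLab.triv (l.ovr c hc))).p.map x =
      (l.cq c hc (FLab.triv (l.ovr c hc))).map (l.p.map x) := by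
    induction x using fc_ind
    rfl
  have e2 : (l.comp c hc (FLab.triv (l.ovr c hc))).v = (l.cq c hc (FLab.triv (l.ovr c hc))).map l.v := by
    rw [l.comp_v c hc (FLab.triv (l.ovr c hc))]
    have e3 : (fc (FLab.triv (l.ovr c hc)).V : FL (l.comp c hc (FLab.triv (l.ovr c hc))).T) = ⊥ := rfl
    rw [e3, sup_bot_eq]
  rw [e1, e2]
  exact (l.cq c hc (FLab.triv (l.ovr c hc))).h_map _ _

/-- entropies over a label of a zoom, in the space of the composed label -/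
theorem h_comp_two {F : FSp} (l : FLab F) (c : ℝ) (hc : 0 < c) (l2 : FLab (l.ovr c hc)) (B : Setoid l2.T.Ω) :
    Pool.Agent.Helper31.EC.h (fc B : FL (l.comp c hc l2).T) (l.comp c hc l2).v =
      Pool.Agent.Helper31.EC.h (fc B : FL l2.T) l2.v := by
  have h1 := (l.cr c hc l2).h_map (fc B) (fc l2.V)
  have h2 : (l.comp c hc l2).v = (fc l2.V : FL (l.comp c hc l2).T) ⊔ fc (l.cr c hc l2).W := by
    rw [l.comp_v c hc l2, sup_comm]
    rfl
  rw [h2]
  exact h1.symm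

theorem UB_pcr (l : Lab S) (Q : S.VV N) (r : ℝ) (B : ∀ k, FL (l k).T) :
    UB (fun k => Pool.Agent.Helper31.EC.h ((l k).p.map (pcr Q r k)) (B k) / (S.F k).n) := by
  refine UB.sandwich (UB_const 0) ((pcr_Bd Q r).ub (fun _ => ⊥)) ?_ ?_
  · exact Eventually.of_forall fun k => div_nonneg (h_nonneg _ _) (S.F k).pos.le
  · refine Eventually.of_forall fun k => div_le_div_of_nonneg_right ?_ (S.F k).pos.le
    rw [h_bot, ← (l k).p.H_map]
    exact h_le_H _ _

/-- THE CHAIN RULE: the cells of the zoom as a part of the label -/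
theorem chain {N' : ℕ} (l : Lab S) {w : ℝ} (hw : 0 < w) (l2 : Lab (l.ovr w hw)) (X : (l.ovr w hw).VV N') (Q : S.VV N)
    (r b : ℝ) : H (up1 (l.comp w hw l2) (Q.dg b)) ≤ w * H (up1 l2 (X.dg r)) +
      H (up1 (Lab.addW (l.comp w hw l2) fun k => Setoid.comap (l2 k).p.π (Setoid.ker (X.cellv r k))) (Q.dg b)) := by
  have e1 := Pool.Agent.Helper52.GF.H_pcr (l.comp w hw l2) Q b
  have e2 := Pool.Agent.Helper52.GF.H_pcr l2 X r
  have e3 := Pool.Agent.Helper52.GF.H_pcr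
    (Lab.addW (l.comp w hw l2) fun k => Setoid.comap (l2 k).p.π (Setoid.ker (X.cellv r k))) Q b
  have u1 := UB_pcr (l.comp w hw l2) Q b (fun k => ((l.comp w hw l2) k).v)
  have u2 := UB_pcr l2 X r (fun k => (l2 k).v)
  have u3 := UB_pcr (Lab.addW (l.comp w hw l2) fun k => Setoid.comap (l2 k).p.π (Setoid.ker (X.cellv r k))) Q b
    (fun k => ((Lab.addW (l.comp w hw l2) fun k => Setoid.comap (l2 k).p.π (Setoid.ker (X.cellv r k))) k).v)
  rw [e1, e2, e3, ← ul_const_mul w u2, ← ul_add (u2.const_mul w) u3]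
  refine ul_mono u1 ((u2.const_mul w).add u3) (Eventually.of_forall fun k => ?_)
  have hn := (S.F k).pos
  have h1 := h_triangle (((l.comp w hw l2) k).p.map (pcr Q b k))
    (fc (Setoid.comap (l2 k).p.π (Setoid.ker (X.cellv r k))) : FL ((l.comp w hw l2) k).T) ((l.comp w hw l2) k).v
  have h2 := h_comp_two (l k) w hw (l2 k) (Setoid.comap (l2 k).p.π (Setoid.ker (X.cellv r k)))
  have h3 : ((l.ovr w hw).F k).n = w * (S.F k).n := l.n_over w hw k
  have h4 : Pool.Agent.Helper31.EC.h (((l.comp w hw l2) k).p.map (pcr Q b k))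
      ((fc (Setoid.comap (l2 k).p.π (Setoid.ker (X.cellv r k))) : FL ((l.comp w hw l2) k).T) ⊔
        ((l.comp w hw l2) k).v) = Pool.Agent.Helper31.EC.h
      (((Lab.addW (l.comp w hw l2) fun k => Setoid.comap (l2 k).p.π (Setoid.ker (X.cellv r k))) k).p.map (pcr Q b k))
      ((Lab.addW (l.comp w hw l2) fun k => Setoid.comap (l2 k).p.π (Setoid.ker (X.cellv r k))) k).v := by
    rw [sup_comm]
    rfl
  rw [h4] at h1
  have h5 : w * (Pool.Agent.Helper31.EC.h ((l2 k).p.map (pcr X r k)) (l2 k).v / ((l.ovr w hw).F k).n) =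
      Pool.Agent.Helper31.EC.h (fc (Setoid.comap (l2 k).p.π (Setoid.ker (X.cellv r k))) :
        FL ((l.comp w hw l2) k).T) ((l.comp w hw l2) k).v / (S.F k).n := by
    rw [h3]
    have h6 : Pool.Agent.Helper31.EC.h ((l2 k).p.map (pcr X r k)) (l2 k).v =
      Pool.Agent.Helper31.EC.h (fc (Setoid.comap (l2 k).p.π (Setoid.ker (X.cellv r k))) :
        FL ((l.comp w hw l2) k).T) ((l.comp w hw l2) k).v := h2.symm
    rw [h6]
    field_simp
  show _ ≤ w * _ + _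
  rw [h5, ← add_div, add_comm]
  exact div_le_div_of_nonneg_right h1 hn.le

/-- ROWS WITH CENTRES over a label: the values of the rows are known up to `2 ^ (- θ n)` -/
structure FR (Q : S.VV N) (l : Lab S) (D : ℕ) (b w θ U : ℝ) where
  p : ∀ k, (l k).T.Ω → Fin N → MvPolynomial (Fin N) ℝ
  c : ∀ k, (l k).T.Ω → Fin N → ℝ
  Λ : ℝ
  deg : ∀ k ω j, (p k ω j).totalDegree ≤ D
  fn : ∀ᶠ k in UF, ∀ ω ω', (l k).T.μ ω ≠ 0 → (l k).T.μ ω' ≠ 0 → (l k).T.Z ω ω' → (l k).V ω ω' →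
    p k ω = p k ω' ∧ c k ω = c k ω'
  cf : ∃ K : ℕ → ℝ, S.Sub K ∧ ∀ᶠ k in UF, ∀ ω, (l k).T.μ ω ≠ 0 → ∀ j a,
    |(p k ω j).coeff a| ≤ K k * 2 ^ (Λ * (S.F k).n)
  cb : ∃ K : ℕ → ℝ, S.Sub K ∧ ∀ᶠ k in UF, ∀ ω, (l k).T.μ ω ≠ 0 → ∀ j, |c k ω j| ≤ K k
  near : ∃ K : ℕ → ℝ, S.Sub K ∧ Typ (S := l.sp) (fun k (ω : (l k).T.Ω) => ∀ j,
    |MvPolynomial.eval (Q.v k ((l k).p.π ω)) (p k ω j) - c k ω j| ≤ K k * S.dl θ k)
  lp : ∀ L : ℕ → ℝ, S.Sub L → ∃ K : ℕ → ℝ, S.Sub K ∧ Typ (S := l.sp) (fun k (ω : (l k).T.Ω) =>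
    ∀ y : Fin N → ℝ, (∀ i, |y i - Q.v k ((l k).p.π ω) i| ≤ L k * S.dl b k) → ∀ j,
      |MvPolynomial.eval y (p k ω j) - MvPolynomial.eval (Q.v k ((l k).p.π ω)) (p k ω j)| ≤ K k * S.dl w k)
  det : ∃ K : ℕ → ℝ, S.Sub K ∧ Typ (S := l.sp) (fun k (ω : (l k).T.Ω) =>
    2 ^ (2 * U * (S.F k).n) ≤ K k * (jac (p k ω) (Q.v k ((l k).p.π ω))).det ^ 2)

namespace FR

variable {Q : S.VV N} {l : Lab S} {D : ℕ} {b w θ U : ℝ} (f : FR Q l D b w θ U)

/-- the scaled rows -/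
def q (k : ℕ) (ω : (l k).T.Ω) (j : Fin N) : MvPolynomial (Fin N) ℝ :=
  MvPolynomial.C (S.dl θ k)⁻¹ * (f.p k ω j - MvPolynomial.C (f.c k ω j))

theorem q_eval (k : ℕ) (ω : (l k).T.Ω) (j : Fin N) (y : Fin N → ℝ) :
    MvPolynomial.eval y (f.q k ω j) = (S.dl θ k)⁻¹ * (MvPolynomial.eval y (f.p k ω j) - f.c k ω j) := by
  unfold q
  rw [map_mul, MvPolynomial.eval_C, map_sub, MvPolynomial.eval_C]

theorem q_jac (k : ℕ) (ω : (l k).T.Ω) (x : Fin N → ℝ) :
    jac (f.q k ω) x = (S.dl θ k)⁻¹ • jac (f.p k ω) x := by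
  ext i a
  unfold jac q
  rw [Matrix.smul_apply, Matrix.of_apply, Matrix.of_apply, MvPolynomial.pderiv_C_mul, map_sub, MvPolynomial.pderiv_C,
    sub_zero, map_mul, MvPolynomial.eval_C, smul_eq_mul]

theorem dl_inv (S : Sp) (t : ℝ) (k : ℕ) : (S.dl t k)⁻¹ = 2 ^ (t * (S.F k).n) := by
  unfold Sp.dl
  rw [Real.rpow_neg (by norm_num), inv_inv]

/-- the rows of the truncated point -/
def rows (hb : 0 < b) : Rows (Q.chg S.tr b hb) (tnL b hb l) N D ((max f.Λ 0 + max θ 0) / b) ((w - θ) / b) where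
  p := f.q
  deg := fun k ω j => by
    show (f.q k ω j).totalDegree ≤ D
    unfold q
    refine (MvPolynomial.totalDegree_mul _ _).trans ?_
    rw [MvPolynomial.totalDegree_C, zero_add]
    refine (MvPolynomial.totalDegree_sub _ _).trans (max_le (f.deg k ω j) ?_)
    rw [MvPolynomial.totalDegree_C]
    exact Nat.zero_le _
  fn := by
    filter_upwards [f.fn] with k hk ω ω' a b c d
    obtain ⟨h1, h2⟩ := hk ω ω' a b c d
    funext j
    show f.q k ω j = f.q k ω' j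
    unfold q
    rw [h1, h2]
  cf := by
    obtain ⟨K, hK, hh⟩ := f.cf
    obtain ⟨K', hK', hh'⟩ := f.cb
    refine ⟨fun k => K k + K' k, chg_sub S.tr b hb (hK.add hK'), ?_⟩
    filter_upwards [hh, hh', hK.1, hK'.1] with k h1 h2 h3 h4 ω hω j a
    have hn := (S.F k).pos
    have e1 : (max f.Λ 0 + max θ 0) / b * ((S.chg S.tr b hb).F k).n = (max f.Λ 0 + max θ 0) * (S.F k).n := by
      show (max f.Λ 0 + max θ 0) / b * (b * (S.F k).n) = _
      rw [← mul_assoc, div_mul_cancel₀ _ hb.ne']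
    rw [e1]
    show |(f.q k ω j).coeff a| ≤ _
    unfold q
    rw [MvPolynomial.coeff_C_mul, abs_mul, dl_inv, abs_of_pos (by positivity)]
    have h5 : |(f.p k ω j - MvPolynomial.C (f.c k ω j)).coeff a| ≤ (K k + K' k) * 2 ^ (max f.Λ 0 * (S.F k).n) := by
      rw [MvPolynomial.coeff_sub]
      refine (abs_sub _ _).trans ?_
      have h6 := h1 ω hω j a
      have h7 : (2 : ℝ) ^ (f.Λ * (S.F k).n) ≤ 2 ^ (max f.Λ 0 * (S.F k).n) :=
        Real.rpow_le_rpow_of_exponent_le (by norm_num) (mul_le_mul_of_nonneg_right (le_max_left _ _) hn.le)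
      have h8 : |(MvPolynomial.C (f.c k ω j) : MvPolynomial (Fin N) ℝ).coeff a| ≤ K' k := by
        classical
        rw [MvPolynomial.coeff_C]
        split_ifs
        · exact h2 ω hω j
        · rw [abs_zero]
          exact h4
      have h9 : (1 : ℝ) ≤ 2 ^ (max f.Λ 0 * (S.F k).n) :=
        Real.one_le_rpow (by norm_num) (mul_nonneg (le_max_right _ _) hn.le)
      have h10 : K k * 2 ^ (f.Λ * (S.F k).n) ≤ K k * 2 ^ (max f.Λ 0 * (S.F k).n) := mul_le_mul_of_nonneg_left h7 h3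
      have h11 : K' k ≤ K' k * 2 ^ (max f.Λ 0 * (S.F k).n) := le_mul_of_one_le_right h4 h9
      calc _ ≤ K k * 2 ^ (f.Λ * (S.F k).n) + K' k := add_le_add h6 h8
        _ ≤ _ := by linarith
    have h12 : (2 : ℝ) ^ (θ * (S.F k).n) ≤ 2 ^ (max θ 0 * (S.F k).n) :=
      Real.rpow_le_rpow_of_exponent_le (by norm_num) (mul_le_mul_of_nonneg_right (le_max_left _ _) hn.le)
    have h13 : (2 : ℝ) ^ ((max f.Λ 0 + max θ 0) * (S.F k).n) =
        2 ^ (max f.Λ 0 * (S.F k).n) * 2 ^ (max θ 0 * (S.F k).n) := by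
      rw [add_mul, Real.rpow_add (by norm_num)]
    rw [h13]
    have h14 : 0 ≤ (K k + K' k) * 2 ^ (max f.Λ 0 * (S.F k).n) := by positivity
    calc _ ≤ 2 ^ (max θ 0 * (S.F k).n) * ((K k + K' k) * 2 ^ (max f.Λ 0 * (S.F k).n)) :=
          mul_le_mul h12 h5 (abs_nonneg _) (by positivity)
      _ = _ := by ring
  bd := by
    obtain ⟨K, hK, hh⟩ := f.near
    refine ⟨K, chg_sub S.tr b hb hK, ?_⟩
    have hh' : Typ (S := (tnL b hb l).sp) (fun k (ω : (l k).T.Ω) => ∀ j,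
      |MvPolynomial.eval (Q.v k ((l k).p.π ω)) (f.p k ω j) - f.c k ω j| ≤ K k * S.dl θ k) := hh
    refine Typ.mono (S := (tnL b hb l).sp) hh' (Eventually.of_forall fun k ω _ h1 j => ?_)
    have h2 := S.dl_pos θ k
    show |MvPolynomial.eval (Q.v k ((l k).p.π ω)) (f.q k ω j)| ≤ K k
    rw [q_eval, abs_mul, abs_of_pos (inv_pos.mpr h2), inv_mul_le_iff₀ h2, mul_comm]
    exact h1 j
  lp := by
    intro L hL
    obtain ⟨K, hK, hh⟩ := f.lp L (chg_sub' S.tr b hb hL)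
    refine ⟨K, chg_sub S.tr b hb hK, ?_⟩
    have hh' : Typ (S := (tnL b hb l).sp) (fun k (ω : (l k).T.Ω) =>
      ∀ y : Fin N → ℝ, (∀ i, |y i - Q.v k ((l k).p.π ω) i| ≤ L k * S.dl b k) → ∀ j,
      |MvPolynomial.eval y (f.p k ω j) - MvPolynomial.eval (Q.v k ((l k).p.π ω)) (f.p k ω j)| ≤ K k * S.dl w k) := hh
    refine Typ.mono (S := (tnL b hb l).sp) hh' (Eventually.of_forall fun k ω _ h1 y hy j => ?_)
    have h2 := S.dl_pos θ k
    have e1 : (S.chg S.tr b hb).dl 1 k = S.dl b k := by rw [chg_dl, mul_one]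
    have e2 : (S.chg S.tr b hb).dl ((w - θ) / b) k = S.dl (w - θ) k := by
      rw [chg_dl, mul_div_cancel₀ _ hb.ne']
    rw [e1] at hy
    have h3 := h1 y hy j
    show |MvPolynomial.eval y (f.q k ω j) - MvPolynomial.eval (Q.v k ((l k).p.π ω)) (f.q k ω j)| ≤ _
    rw [e2, q_eval, q_eval, ← mul_sub, sub_sub_sub_cancel_right, abs_mul, abs_of_pos (inv_pos.mpr h2)]
    refine (mul_le_mul_of_nonneg_left h3 (inv_pos.mpr h2).le).trans (le_of_eq ?_)
    have e3 : S.dl (w - θ) k = (S.dl θ k)⁻¹ * S.dl w k := by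
      rw [eq_inv_mul_iff_mul_eq₀ h2.ne', ← S.dl_add]
      congr 1
      ring
    rw [e3]
    ring

/-- the label, the unit -/
def zu (l : Lab S) (hb : 0 < b) (hθ : θ < w) (hw : w - θ ≤ b) : ZU (S.chg S.tr b hb) :=
  ⟨tnL b hb l, 0, (w - θ) / b, le_rfl, div_pos (sub_pos.mpr hθ) hb, by
    rw [zero_add, div_le_one hb]
    exact hw⟩

/-- the pair of points -/
def pz (hb : 0 < b) (hθ : θ < w) (hw : w - θ ≤ b) : PZ (zu l hb hθ hw) (Q.chg S.tr b hb) N :=
  ⟨D, _, f.rows hb, rQ (zu l hb hθ hw) (f.rows hb), rQ_isX (zu l hb hθ hw) (f.rows hb)⟩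

theorem out_ent (hb : 0 < b) (hθ : θ < w) (hw : w - θ ≤ b) (DD : ℕ) :
    H (up1 (lb ((f.pz hb hθ hw).out DD fun k => trivFD (ι := Mon N 1) ((zu l hb hθ hw).sp.F k)))
      ((Q.chg S.tr b hb).dg 1)) = H (up1 l (Q.dg b)) / b := by
  rw [Pool.Agent.Helper52.GF.H_pcr, Pool.Agent.Helper52.GF.H_pcr]
  refine Pool.Agent.Helper8.CPY.ul_chg hb (fun k => ?_) ?_
  · have e1 : pcr (Q.chg S.tr b hb) 1 k = fc (F := (S.chg S.tr b hb).F k) (Setoid.ker (Q.cellv b k)) := by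
      have e2 : (Q.chg S.tr b hb).cellv 1 k = Q.cellv b k := (cellv_chg Q b hb 1 k).trans (by rw [mul_one])
      exact congrArg (fun f => fc (F := (S.chg S.tr b hb).F k) (Setoid.ker f)) e2
    rw [e1]
    exact h_comp_triv (tnF b hb (l k)) ((w - θ) / b) (div_pos (sub_pos.mpr hθ) hb)
      (fc (F := (S.chg S.tr b hb).F k) (Setoid.ker (Q.cellv b k)))
  · refine UB.sandwich (UB_const 0) ((pcr_Bd Q b).ub (fun _ => ⊥)) ?_ ?_
    · exact Eventually.of_forall fun k => div_nonneg (h_nonneg _ _) (S.F k).pos.le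
    · refine Eventually.of_forall fun k => div_le_div_of_nonneg_right ?_ (S.F k).pos.le
      rw [h_bot, ← (l k).p.H_map]
      exact h_le_H _ _

include f in
/-- **THE FIBER COUNT** -/
theorem count (hb : 0 < b) (hθ : θ < w) (hw : w - θ ≤ b) :
    H (up1 l (Q.dg b)) ≤ N * b - U - N * θ := by
  obtain ⟨K, hK, hdet⟩ := f.det
  have hy : (gaq (f.pz hb hθ hw).X 1).Adf (κ := Fin 0) (fun i => i.elim0)
      (fun k => trivFD ((zu l hb hθ hw).sp.F k)) := Gau.triv_Adf _ _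
  have hA : (zu l hb hθ hw).l.DMf (fun i : Fin 0 => i.elim0) := fun i => i.elim0
  have hn : ∀ k, ((S.chg S.tr b hb).F k).n = b * (S.F k).n := fun k => rfl
  have h1 := (f.pz hb hθ hw).vol_out_le (κ := Fin 0) (κ' := Fin 0) (A := fun i => i.elim0) (B := fun i => i.elim0) hA
    (fun i => i.elim0) le_rfl (DD := D + 1) (by
      show 1 * D ≤ D + 1
      omega) hy (fun _ _ => (U + N * θ) / b) |(U + N * θ) / b| (Eventually.of_forall fun _ _ _ => le_rfl) K
    (chg_sub S.tr b hb hK) (by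
      have hdet' : Typ (S := (tnL b hb l).sp) (fun k (ω : (l k).T.Ω) =>
        2 ^ (2 * U * (S.F k).n) ≤ K k * (jac (f.p k ω) (Q.v k ((l k).p.π ω))).det ^ 2) := hdet
      refine Typ.mono (S := (tnL b hb l).sp) hdet' (Eventually.of_forall fun k ω _ h1 => ?_)
      show 2 ^ (2 * ((U + N * θ) / b) * ((S.chg S.tr b hb).F k).n) ≤
        K k * (jac (f.q k ω) (Q.v k ((l k).p.π ω))).det ^ 2
      rw [q_jac, Matrix.det_smul, Fintype.card_fin, dl_inv, hn]
      have e1 : 2 * ((U + N * θ) / b) * (b * (S.F k).n) = 2 * U * (S.F k).n + (θ * (S.F k).n) * ((N + N : ℕ) : ℝ) := by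
        push_cast
        field_simp
        ring
      rw [e1, Real.rpow_add (by norm_num), Real.rpow_mul_natCast (by norm_num)]
      have e2 : (((2 : ℝ) ^ (θ * (S.F k).n)) ^ N * (jac (f.p k ω) (Q.v k ((l k).p.π ω))).det) ^ 2 =
        (jac (f.p k ω) (Q.v k ((l k).p.π ω))).det ^ 2 * ((2 : ℝ) ^ (θ * (S.F k).n)) ^ (N + N) := by ring
      rw [e2, ← mul_assoc]
      exact mul_le_mul_of_nonneg_right h1 (by positivity))
  have h2 := (f.pz hb hθ hw).out_ad (κ := Fin 0) (κ' := Fin 0) (A := fun i => i.elim0) (B := fun i => i.elim0) hA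
    (fun i => i.elim0) (D := 1) (DD := D + 1) (by
      show 1 * D ≤ D + 1
      omega) hy
  have h3 := Pool.Agent.Helper14.MC.cnt_vol (Q.chg S.tr b hb) (Nat.succ_le_succ (Nat.zero_le D)) _ h2
  have h4 : vol (f.pz hb hθ hw).X 1 (fun k => trivFD ((zu l hb hθ hw).sp.F k)) ≤ N :=
    Pool.Agent.Helper14.MC.vol_le hy
  have h5 : ul (fun k => ∑ ω, ((zu l hb hθ hw).l k).T.μ ω * ((U + N * θ) / b)) = (U + N * θ) / b := by
    have e1 : (fun k => ∑ ω, ((zu l hb hθ hw).l k).T.μ ω * ((U + N * θ) / b)) = fun _ => (U + N * θ) / b := by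
      funext k
      rw [← Finset.sum_mul]
      have h6 : ∑ ω, ((zu l hb hθ hw).l k).T.μ ω = 1 := ((zu l hb hθ hw).l k).T.ms
      rw [h6, one_mul]
    rw [e1]
    exact ul_const _
  rw [h5] at h1
  have h6 := mul_nonneg (zu l hb hθ hw).hu.le (sub_nonneg.mpr h4)
  have h7 := h3.trans h1
  rw [f.out_ent hb hθ hw] at h7
  have h8 : H (up1 l (Q.dg b)) / b ≤ N - (U + N * θ) / b := by linarith
  rw [div_le_iff₀ hb, sub_mul, div_mul_cancel₀ _ hb.ne'] at h8
  linarith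

end FR

end

end Pool.Agent.Helper5.FN3
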